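import Pool.Agent.Lib.MP_65ccae_an.Cond

namespace Pool.Agent.Results.MP_65ccae_an.ReflexiveConditional

/-- the canonical map into the bidual is onto -/
def IsReflexive (𝕜 X : Type) [RCLike 𝕜] [NormedAddCommGroup X] [NormedSpace 𝕜 X] : Prop :=
  Function.Surjective (NormedSpace.inclusionInDoubleDual 𝕜 X)

/-- every expansion converges unconditionally -/
def IsUnconditional {𝕜 X : Type} [RCLike 𝕜] [NormedAddCommGroup X] [NormedSpace 𝕜 X]
    (b : SchauderBasis 𝕜 X) : Prop :=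
  ∀ x : X, Summable fun n : ℕ => b.coord n x • b.basis n

/-- greedy rearrangements preserve the norm -/
def PropertyA {𝕜 X : Type} [RCLike 𝕜] [NormedAddCommGroup X] [NormedSpace 𝕜 X]
    (b : SchauderBasis 𝕜 X) : Prop :=
  ∀ (x y : X) (π : ℕ ≃ ℕ), (∀ n : ℕ, ‖b.coord (π n) y‖ = ‖b.coord n x‖) →
    (∀ k : ℕ, 0 < ‖b.coord k x‖ₑ → ‖b.coord k x‖ₑ < ⨆ n : ℕ, ‖b.coord n x‖ₑ →
      π k = k ∧ b.coord k y = b.coord k x) → ‖x‖ = ‖y‖

open Pool.Agent.Lib.MP_65ccae_an in
/-- Over the real and over the complex scalars there is a reflexive Banach space with a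
conditional Schauder basis that has Property (A). -/
theorem result (𝕜 : Type) [RCLike 𝕜] :
    ∃ (X : Type) (_ : NormedAddCommGroup X) (_ : NormedSpace 𝕜 X) (_ : CompleteSpace X)
      (b : SchauderBasis 𝕜 X), IsReflexive 𝕜 X ∧ ¬ IsUnconditional b ∧ PropertyA b := by
  refine ⟨XX 𝕜 blk, inferInstance, inferInstance, inferInstance, sb blk_tendsto,
    reflexive blk_tendsto, not_uncond blk_tendsto blk_long, fun x y π h1 h2 => ?_⟩
  refine propA x y π h1 fun k hk hn => h2 k ?_ ?_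
  · exact enorm_pos.2 (norm_pos_iff.1 hk)
  · obtain ⟨n, hn⟩ := hn
    refine lt_iSup_iff.2 ⟨n, ?_⟩
    rw [← ofReal_norm, ← ofReal_norm]
    exact (ENNReal.ofReal_lt_ofReal_iff_of_nonneg (norm_nonneg _)).2 hn

end Pool.Agent.Results.MP_65ccae_an.ReflexiveConditional
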